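import Mathlib
import Pool.Agent.HStar.Asm2
import Pool.Agent.HFull.Mid

set_option autoImplicit false

namespace Pool.Agent.Results.MP_832e94_an.AllOrders

open Polynomial

/-- Full positive answer to Q1, for all `n`, all orders `k < n` and all self-conjugate node lists `z`
in the closed unit disc.  `M` is the maximum of `|f^(k)|` on `[-1,1]`, `f = ∏ (w - z_j)`; the second set
consists of the numbers `|(g - p)^(k)(x)|`, `g` entire with `|g^(n)| ≤ 1` on the closed disc, `p` the
Hermite interpolant of `g` at `z`, `x ∈ [-1,1]`, and its greatest element is `M / n!`. -/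
theorem result (n k : ℕ) (z : Fin n → ℂ) (hk : k < n) (hz : ∀ i, ‖z i‖ ≤ 1)
    (hconj : ∀ w : ℂ, Nat.card {j : Fin n // z j = w} =
      Nat.card {j : Fin n // z j = (starRingEnd ℂ) w})
    (heven : ∀ r : ℝ, Even (Nat.card {j : Fin n // z j = (r : ℂ)})) :
    ∃ M : ℝ,
      IsGreatest {t : ℝ | ∃ x : ℝ, x ∈ Set.Icc (-1 : ℝ) 1 ∧
        t = ‖iteratedDeriv k (fun w : ℂ => ∏ j, (w - z j)) (x : ℂ)‖} M ∧
      IsGreatest {t : ℝ | ∃ g : ℂ → ℂ, ∃ p : Polynomial ℂ, ∃ x : ℝ,
        Differentiable ℂ g ∧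
        (∀ w : ℂ, ‖w‖ ≤ 1 → ‖iteratedDeriv n g w‖ ≤ 1) ∧
        p.degree < (n : WithBot ℕ) ∧
        (∀ i : Fin n, ∀ m : ℕ, m < Nat.card {j : Fin n // z j = z i} →
          iteratedDeriv m (fun w => g w - p.eval w) (z i) = 0) ∧
        x ∈ Set.Icc (-1 : ℝ) 1 ∧
        t = ‖iteratedDeriv k (fun w => g w - p.eval w) (x : ℂ)‖} (M / (n.factorial : ℝ)) := by
  have hn : 1 ≤ n := by omega
  have heq : sSup (ConjInterp.lset n k z) =
      (1 / (n.factorial : ℝ)) * sSup (ConjInterp.rset n k z) :=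
    HStar.final HFull.mid_all n k z hn (by omega) hz hconj heven
  have hfac : (0:ℝ) < (n.factorial : ℝ) := by exact_mod_cast n.factorial_pos
  -- the right-hand set has a greatest element
  obtain ⟨y, hy, hmax⟩ : ∃ y ∈ Set.Icc (-1:ℝ) 1, ∀ t ∈ Set.Icc (-1:ℝ) 1,
      ‖iteratedDeriv k (fun w : ℂ => ∏ j, (w - z j)) (t:ℂ)‖ ≤
        ‖iteratedDeriv k (fun w : ℂ => ∏ j, (w - z j)) (y:ℂ)‖ := by
    have hc : ContinuousOn
        (fun t : ℝ => ‖iteratedDeriv k (fun w : ℂ => ∏ j, (w - z j)) (t:ℂ)‖) (Set.Icc (-1:ℝ) 1) :=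
      (((ConjInterp.entire_iteratedDeriv (ConjInterp.prod_entire z) k).continuous).comp
        Complex.continuous_ofReal).norm.continuousOn
    obtain ⟨y, hy, hmax⟩ := isCompact_Icc.exists_isMaxOn
      (⟨0, by norm_num, by norm_num⟩ : (Set.Icc (-1:ℝ) 1).Nonempty) hc
    exact ⟨y, hy, fun t ht => hmax ht⟩
  set M : ℝ := ‖iteratedDeriv k (fun w : ℂ => ∏ j, (w - z j)) (y:ℂ)‖ with hM
  have hR : IsGreatest (ConjInterp.rset n k z) M := by
    refine ⟨⟨y, hy, rfl⟩, ?_⟩
    rintro t ⟨x, hx, rfl⟩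
    exact hmax x hx
  have hRs : sSup (ConjInterp.rset n k z) = M := hR.csSup_eq
  -- `M` is positive
  have hMpos : 0 < M := by
    by_contra hcon
    have hM0 : M = 0 := le_antisymm (not_lt.1 hcon) (norm_nonneg _)
    set q : ℂ[X] := ∏ j, (X - C (z j)) with hq
    have hqf : (fun w : ℂ => ∏ j, (w - z j)) = fun w => q.eval w := by
      funext w
      simp [hq, Polynomial.eval_prod]
    have hroot : ∀ t ∈ Set.Icc (-1:ℝ) 1, (derivative^[k] q).eval (t:ℂ) = 0 := by
      intro t ht
      have h1 := hmax t ht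
      rw [hM0, hqf, ConjInterp.iter_poly] at h1
      exact norm_le_zero_iff.1 h1
    have hzero : derivative^[k] q = 0 := by
      apply Polynomial.eq_zero_of_infinite_isRoot
      have hinf : (Set.Icc (-1:ℝ) 1).Infinite := Set.Icc_infinite (by norm_num)
      have h2 : ((fun t : ℝ => (t:ℂ)) '' Set.Icc (-1:ℝ) 1).Infinite :=
        hinf.image (Complex.ofReal_injective.injOn)
      refine h2.mono ?_
      rintro _ ⟨t, ht, rfl⟩
      exact hroot t ht
    have hqm : q.Monic := Polynomial.monic_prod_of_monic _ _ (fun j _ => Polynomial.monic_X_sub_C _)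
    have hqd : q.natDegree = n := by
      rw [hq, Polynomial.natDegree_prod_of_monic _ _ (fun j _ => Polynomial.monic_X_sub_C _)]
      simp
    have hcoef : (derivative^[k] q).coeff (n - k) = 0 := by rw [hzero]; simp
    rw [Polynomial.coeff_iterate_derivative, Nat.sub_add_cancel hk.le, ← hqd,
      Polynomial.coeff_natDegree, hqm.leadingCoeff, hqd] at hcoef
    rw [nsmul_eq_mul, mul_one, Nat.cast_eq_zero, Nat.descFactorial_eq_zero_iff_lt] at hcoef
    omega
  -- hence the left-hand set is bounded above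
  have hbdd : BddAbove (ConjInterp.lset n k z) := by
    by_contra hcon
    rw [Real.sSup_of_not_bddAbove hcon, hRs] at heq
    have : 0 < (1 / (n.factorial : ℝ)) * M := by positivity
    linarith
  refine ⟨M, hR, ?_⟩
  have hval : M / (n.factorial : ℝ) = (1 / (n.factorial : ℝ)) * M := by ring
  constructor
  · rw [hval]
    exact ConjInterp.mem_lset hn z hR.1
  · intro t ht
    have h1 : t ≤ sSup (ConjInterp.lset n k z) := le_csSup hbdd ht
    rw [heq, hRs] at h1
    rw [hval]
    exact h1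

end Pool.Agent.Results.MP_832e94_an.AllOrders
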